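import Pool.Agent.D0H64.BT.Pc

set_option autoImplicit false

/-!
# Small split primes: a bounded number of exceptional twists of every discriminant

Let `d` be ANY negative fundamental discriminant. The discriminants near `d` are the discriminants `e` of the fields
`ℚ(√(d m))` with small `m`; more generally two discriminants are near to each other if the third quadratic field in the
compositum of their fields is `ℚ(√n)` with small `n`. `N(e)` is the number of the question, `Y(e)` is the number of all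
primes below the threshold; more generally only the primes in an arbitrary set `Q` are counted.

(1) At most `C (log log |d|) ^ (k - 1) (Y(d) / (η² Y_Q(d))) ^ k` of the squarefree `m ≤ (log |d|) ^ (4 k - δ)` are such
that `|2 N_Q(e) - Y_Q(e)| > η Y_Q(e)` for the discriminant `e` of `ℚ(√(d m))`; `C` depends on `k` and `δ` only. For
`k = 1` and the set of all primes the number of these exceptions is at most `C / η²`, so it is BOUNDED: for every `η`
every large `d` has a good twist by one of any `K(η)` squarefree numbers up to `(log |d|) ^ (4 - δ)`.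

(2) The same for arbitrary sets of discriminants in which any two are near to each other (distance up to
`(log |d|) ^ (8 k - δ)`), as a bound for the sum of the `2 k`-th powers of the relative deviations.

(3) The same for the primes below ANY `t ≥ t₀` instead of the threshold, uniformly in all (real and imaginary) quadratic
fields.

The proof: the bound of Burgess (`R852.BC`) and the inequality of Polya and Vinogradov give a power saving in the sums
of the symbols `(r / n)` over `n ≤ x` for all squarefree `r ≠ 1` with `|r| ≤ x ^ (4 - δ)`; the duality principle is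
applied to the products of `k` primes, which are majorised by the weights of Selberg.
-/

namespace Pool.Agent.Results.MP_aaa0df_nt.BoundedExceptionalTwists

open Finset

/-- `d` is `1` or the discriminant of a (real or imaginary) quadratic field -/
def Fund (d : ℤ) : Prop := (d % 4 = 1 ∧ Squarefree d) ∨ ∃ m : ℤ, d = 4 * m ∧ (m % 4 = 2 ∨ m % 4 = 3) ∧ Squarefree m

/-- `d` is the discriminant of an imaginary quadratic field (as in the frozen statement) -/
def NegFund (d : ℤ) : Prop := d < 0 ∧ ((d % 4 = 1 ∧ Squarefree d) ∨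
  ∃ m : ℤ, d = 4 * m ∧ (m % 4 = 2 ∨ m % 4 = 3) ∧ Squarefree m)

/-- `d` and `e` have a distance of at most `R`: `d e n` is a square for an integer `n ≠ 0` with `|n| ≤ R`, so that
`ℚ(√(d e)) = ℚ(√n)` -/
def Near (R : ℝ) (d e : ℤ) : Prop := ∃ n : ℤ, n ≠ 0 ∧ |(n : ℝ)| ≤ R ∧ IsSquare (d * e * n)

/-- `p` splits in the quadratic field of discriminant `d` (as in the frozen statement) -/
def Splits (d : ℤ) (p : ℕ) : Prop := ¬ (p : ℤ) ∣ d ∧ ∃ x : ℤ, (4 * (p : ℤ)) ∣ x ^ 2 - d

/-- `p` is inert in the quadratic field of discriminant `d` -/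
def Inert (d : ℤ) (p : ℕ) : Prop := ¬ ∃ x : ℤ, (4 * (p : ℤ)) ∣ x ^ 2 - d

/-- the number of the primes `p < t` in the set `Q` which split -/
noncomputable def split (Q : Set ℕ) (d : ℤ) (t : ℝ) : ℕ :=
  Set.ncard {p : ℕ | p.Prime ∧ p ∈ Q ∧ (p : ℝ) < t ∧ Splits d p}

/-- the number of the primes `p < t` in the set `Q` which are inert -/
noncomputable def inert (Q : Set ℕ) (d : ℤ) (t : ℝ) : ℕ :=
  Set.ncard {p : ℕ | p.Prime ∧ p ∈ Q ∧ (p : ℝ) < t ∧ Inert d p}

/-- the number of the primes `p < t` in the set `Q` -/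
noncomputable def total (Q : Set ℕ) (t : ℝ) : ℕ := Set.ncard {p : ℕ | p.Prime ∧ p ∈ Q ∧ (p : ℝ) < t}

/-- the threshold `(log |d|) ^ 2 (log log |d|) ^ 2` of the question -/
noncomputable def threshold (d : ℤ) : ℝ := Real.log |(d : ℝ)| ^ 2 * Real.log (Real.log |(d : ℝ)|) ^ 2

/-- the number of the primes in `Q` below the threshold which split: `N(d)` of the question if `Q` contains all primes -/
noncomputable def N (Q : Set ℕ) (d : ℤ) : ℕ := split Q d (threshold d)

/-- the number of the primes in `Q` below the threshold -/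
noncomputable def Y (Q : Set ℕ) (d : ℤ) : ℕ := total Q (threshold d)

/-- the relative deviation `(2 N_Q(e) - Y_Q(e)) / Y_Q(e)`, a number between `-1` and `1` which is `0` if half of the primes split -/
noncomputable def deviation (Q : Set ℕ) (e : ℤ) : ℝ := (2 * (N Q e : ℝ) - Y Q e) / Y Q e

theorem result :
    -- (1) twists
    (∀ (k : ℕ) (δ : ℝ), 1 ≤ k → 0 < δ → ∃ C c D : ℝ, 0 < C ∧ 0 < c ∧ ∀ d : ℤ, NegFund d → D ≤ |(d : ℝ)| →
      ∀ (Q : Set ℕ) (η : ℝ), Real.log |(d : ℝ)| ^ (-c) ≤ η →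
        Real.log |(d : ℝ)| ^ (-c) * Y Set.univ d ≤ Y Q d →
      ∀ M : Finset ℕ, (∀ m ∈ M, Squarefree m ∧ (m : ℝ) ≤ Real.log |(d : ℝ)| ^ (4 * k - δ) ∧
        ¬ ∃ e : ℤ, NegFund e ∧ IsSquare (d * e * m) ∧ |2 * (N Q e : ℝ) - Y Q e| ≤ η * Y Q e) →
      (M.card : ℝ) ≤ C * Real.log (Real.log |(d : ℝ)|) ^ (k - 1) * (Y Set.univ d / (η ^ 2 * Y Q d)) ^ k) ∧
    -- (2) arbitrary sets of discriminants near to each other
    (∀ (k : ℕ) (A δ : ℝ), 1 ≤ k → 0 < δ → ∃ C c D : ℝ, 0 < C ∧ 0 < c ∧ ∀ d : ℤ, Fund d → D ≤ |(d : ℝ)| →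
      ∀ Q : Set ℕ, Real.log |(d : ℝ)| ^ (-c) * Y Set.univ d ≤ Y Q d →
      ∀ B : Finset ℤ, (∀ e ∈ B, Fund e ∧ Near (Real.log |(d : ℝ)| ^ A) d e ∧
        Real.log |(d : ℝ)| ^ (-c) * Y Q e ≤ |2 * (N Q e : ℝ) - Y Q e|) →
      (∀ e ∈ B, ∀ f ∈ B, e ≠ f → Near (Real.log |(d : ℝ)| ^ (8 * k - δ)) e f) →
      ∑ e ∈ B, deviation Q e ^ (2 * k) ≤
        C * Real.log (Real.log |(d : ℝ)|) ^ (k - 1) * (Y Set.univ d / Y Q d) ^ k) ∧
    -- (3) all `t`
    (∀ (k : ℕ) (δ : ℝ), 1 ≤ k → 0 < δ → ∃ C c t₀ : ℝ, 0 < C ∧ 0 < c ∧ ∀ t : ℝ, t₀ ≤ t →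
      ∀ Q : Set ℕ, t ^ (1 - c) ≤ total Q t → ∀ B : Finset ℤ,
        (∀ d ∈ B, Fund d ∧ t ^ (-c) * total Q t ≤ |(split Q d t : ℝ) - inert Q d t|) →
        (∀ d ∈ B, ∀ e ∈ B, d ≠ e → Near (t ^ (4 * k - δ)) d e) →
        ∑ d ∈ B, (((split Q d t : ℝ) - inert Q d t) / total Q t) ^ (2 * k) ≤
          C * (t / total Q t) ^ k / Real.log t) := by
  refine ⟨?_, ?_, ?_⟩
  · intro k δ hk hδ
    exact Pool.Agent.D0H64.BT.twist k hk δ hδ
  · intro k A δ hk hδ
    exact Pool.Agent.D0H64.BT.part2 k hk A δ hδ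
  · intro k δ hk hδ
    exact Pool.Agent.D0H64.BT.part1 k hk δ hδ

end Pool.Agent.Results.MP_aaa0df_nt.BoundedExceptionalTwists
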