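import Pool.Agent.D0H64.BT.Jq

set_option autoImplicit false

/-!
# Small split primes: joint splitting in several twisted quadratic fields

Let `d_1, …, d_r` be ARBITRARY nonzero integers. For twists by squarefree numbers `m_i` the fields are `ℚ(√(d_i m_i))`, and
a tuple `(m_1, …, m_r)` is good if every one of the `2 ^ r` patterns (split or inert in the `i`-th field, `i = 1, …, r`)
occurs for `2 ^ (-r)` of the primes `p < t` of a given set `Q`, up to a relative error `η`.

(1) For all `t ≥ t₀`, all `d_i` with `|d_i| ≤ exp (t ^ (1 - δ))` and an arbitrary finite set `M` of tuples of squarefree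
numbers with `m_1 ⋯ m_r ≤ t ^ (2 k - δ)`, all of which are not good, `M` has at most
`C (t / (η² total)) ^ k / log t` times as many elements as its `r` projections (forget one coordinate) together.

(2) At the threshold `(log x) ^ 2 (log log x) ^ 2` of the question, for `|d_i| ≤ x`: among the tuples of a product
`M_1 × ⋯ × M_r` of ARBITRARY sets of at least `L` squarefree numbers `m ≤ (log x) ^ ((4 - δ) / r)`, the proportion of the
tuples which are not good is at most `C / (η² L)`. So a bounded number of twists of each of the fields suffices: for any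
two imaginary quadratic fields some twists by `m_1, m_2 ≤ K(η)` are such that a quarter of the primes below the threshold
split in both of them.

The proof: the indicator functions of the patterns are combinations of the symbols `(s_S / p)` for the `2 ^ r` integers
`s_S` which arise from the products of the `d_i m_i` over the subsets `S` of the coordinates; by duality, the bound of
Burgess and the sieve of Selberg (the earlier modules `Pa`, `Fa`) only few values `s_S` have a large sum, and a value of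
`s_S` determines one of the `m_i` from the others.
-/

namespace Pool.Agent.Results.MP_aaa0df_nt.JointSplitting

open Finset

/-- `d` is `1` or the discriminant of a (real or imaginary) quadratic field -/
def Fund (d : ℤ) : Prop := (d % 4 = 1 ∧ Squarefree d) ∨ ∃ m : ℤ, d = 4 * m ∧ (m % 4 = 2 ∨ m % 4 = 3) ∧ Squarefree m

/-- `p` splits in the quadratic field of discriminant `d` (as in the frozen statement) -/
def Splits (d : ℤ) (p : ℕ) : Prop := ¬ (p : ℤ) ∣ d ∧ ∃ x : ℤ, (4 * (p : ℤ)) ∣ x ^ 2 - d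

/-- `p` is inert in the quadratic field of discriminant `d` -/
def Inert (d : ℤ) (p : ℕ) : Prop := ¬ ∃ x : ℤ, (4 * (p : ℤ)) ∣ x ^ 2 - d

/-- the number of the primes `p < t` in the set `Q` -/
noncomputable def total (Q : Set ℕ) (t : ℝ) : ℕ := Set.ncard {p : ℕ | p.Prime ∧ p ∈ Q ∧ (p : ℝ) < t}

/-- the number of the primes `p < t` in `Q` with the pattern `σ`: `p` splits in the fields of discriminant `e i` with
`σ i = true` and is inert in the others -/
noncomputable def pattern {r : ℕ} (Q : Set ℕ) (t : ℝ) (e : Fin r → ℤ) (σ : Fin r → Bool) : ℕ :=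
  Set.ncard {p : ℕ | p.Prime ∧ p ∈ Q ∧ (p : ℝ) < t ∧ ∀ i, if σ i then Splits (e i) p else Inert (e i) p}

/-- the tuple `m` of twists is good: for the discriminants `e i` of the fields `ℚ(√(d i * m i))` all the patterns occur
for `2 ^ (-r)` of the primes `p < t` in `Q`, up to the relative error `η` -/
def Good {r : ℕ} (Q : Set ℕ) (t η : ℝ) (d : Fin r → ℤ) (m : Fin r → ℕ) : Prop :=
  ∃ e : Fin r → ℤ, (∀ i, Fund (e i) ∧ IsSquare (d i * m i * e i)) ∧
    ∀ σ : Fin r → Bool, |(pattern Q t e σ : ℝ) - total Q t / 2 ^ r| ≤ η * total Q t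

theorem result :
    -- (1) all `t`, arbitrary sets of tuples
    (∀ (r k : ℕ) (δ : ℝ), 1 ≤ k → 0 < δ → ∃ C c t₀ : ℝ, 0 < C ∧ 0 < c ∧ ∀ t : ℝ, t₀ ≤ t →
      ∀ (Q : Set ℕ) (η : ℝ), t ^ (-c) ≤ η → t ^ (1 - c) ≤ total Q t →
      ∀ d : Fin r → ℤ, (∀ i, d i ≠ 0 ∧ |(d i : ℝ)| ≤ Real.exp (t ^ (1 - δ))) →
      ∀ M : Finset (Fin r → ℕ), (∀ m ∈ M, (∀ i, Squarefree (m i)) ∧ ∏ i, (m i : ℝ) ≤ t ^ (2 * k - δ) ∧
        ¬ Good Q t η d m) →
      (M.card : ℝ) ≤ C * (t / (η ^ 2 * total Q t)) ^ k / Real.log t *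
        ∑ i, ((M.image fun m => Function.update m i 1).card : ℝ)) ∧
    -- (2) the threshold of the question, product sets of tuples
    (∀ (r : ℕ) (δ : ℝ), 0 < δ → ∃ C c D : ℝ, 0 < C ∧ 0 < c ∧ ∀ x : ℝ, D ≤ x → ∀ η : ℝ, Real.log x ^ (-c) ≤ η →
      ∀ d : Fin r → ℤ, (∀ i, d i ≠ 0 ∧ |(d i : ℝ)| ≤ x) →
      ∀ (M : Fin r → Finset ℕ) (L : ℝ), 0 < L → (∀ i, L ≤ (M i).card ∧ ∀ m ∈ M i, Squarefree m ∧
        (m : ℝ) ^ r ≤ Real.log x ^ (4 - δ)) →
      (Set.ncard {m : Fin r → ℕ | (∀ i, m i ∈ M i) ∧
        ¬ Good Set.univ (Real.log x ^ 2 * Real.log (Real.log x) ^ 2) η d m} : ℝ) ≤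
          C / (η ^ 2 * L) * ∏ i, ((M i).card : ℝ)) := by
  refine ⟨?_, ?_⟩
  · intro r k δ hk hδ
    exact Pool.Agent.D0H64.BT.joint r k hk δ hδ
  · intro r δ hδ
    exact Pool.Agent.D0H64.BT.joint2 r δ hδ

end Pool.Agent.Results.MP_aaa0df_nt.JointSplitting
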