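import Pool.Agent.D0H64.BT.Bf

set_option autoImplicit false

/-!
# Small split primes: an inequality of Bessel with the sharp constant, and the repulsion of counterexamples

Let `d` be ANY fundamental discriminant and let `e` run over the discriminants near `d`, that is, `ℚ(√(d e)) = ℚ(√n)` for
an integer `n ≠ 0` with `|n| ≤ (log log |d|) ^ A`. `N(e)` is the number of the question, `Y(e)` is the number of all primes
below the threshold; more generally only the primes in an arbitrary set `Q` are counted. The deviation of `e` is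
`(2 N_Q(e) - Y_Q(e)) / Y_Q(e)`.

(1) The sum of the squares of the deviations of ALL discriminants near `d` is at most `(1 + ε) Y(d) / Y_Q(d)`, for all
large `|d|`, with the sharp constant `1`: a single discriminant without split primes already has deviation `-1`.

(2) Repulsion: if `d` is a counterexample of the question in the weak sense that `N(d) ≤ ε Y(d)`, then for ALL the other
imaginary quadratic discriminants `e` near `d` one has `|2 N(e) - Y(e)| ≤ √(5 ε) Y(e)`, so about half of the primes below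
the threshold split in their fields.

(3) The same inequality for the primes below ANY `t ≥ t₀`, uniformly in all sets of (real and imaginary) quadratic fields
with distances at most `(log t) ^ A`.

The proof: the theorem of Siegel and Walfisz for the sums of the symbols `(r / p)` over the primes `p < t` gives an almost
orthogonal family of vectors; the rest is duality.
-/

namespace Pool.Agent.Results.MP_aaa0df_nt.RepulsionOfCounterexamples

open Finset

/-- `d` is `1` or the discriminant of a (real or imaginary) quadratic field -/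
def Fund (d : ℤ) : Prop := (d % 4 = 1 ∧ Squarefree d) ∨ ∃ m : ℤ, d = 4 * m ∧ (m % 4 = 2 ∨ m % 4 = 3) ∧ Squarefree m

/-- `d` is the discriminant of an imaginary quadratic field (as in the frozen statement) -/
def NegFund (d : ℤ) : Prop := d < 0 ∧ ((d % 4 = 1 ∧ Squarefree d) ∨
  ∃ m : ℤ, d = 4 * m ∧ (m % 4 = 2 ∨ m % 4 = 3) ∧ Squarefree m)

/-- `d` and `e` have a distance of at most `R`: `d e n` is a square for an integer `n ≠ 0` with `|n| ≤ R`, so that
`ℚ(√(d e)) = ℚ(√n)` -/
def Near (R : ℝ) (d e : ℤ) : Prop := ∃ n : ℤ, n ≠ 0 ∧ |(n : ℝ)| ≤ R ∧ IsSquare (d * e * n)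

/-- `p` splits in the quadratic field of discriminant `d` (as in the frozen statement) -/
def Splits (d : ℤ) (p : ℕ) : Prop := ¬ (p : ℤ) ∣ d ∧ ∃ x : ℤ, (4 * (p : ℤ)) ∣ x ^ 2 - d

/-- `p` is inert in the quadratic field of discriminant `d` -/
def Inert (d : ℤ) (p : ℕ) : Prop := ¬ ∃ x : ℤ, (4 * (p : ℤ)) ∣ x ^ 2 - d

/-- the number of the primes `p < t` in the set `Q` which split -/
noncomputable def split (Q : Set ℕ) (d : ℤ) (t : ℝ) : ℕ :=
  Set.ncard {p : ℕ | p.Prime ∧ p ∈ Q ∧ (p : ℝ) < t ∧ Splits d p}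

/-- the number of the primes `p < t` in the set `Q` which are inert -/
noncomputable def inert (Q : Set ℕ) (d : ℤ) (t : ℝ) : ℕ :=
  Set.ncard {p : ℕ | p.Prime ∧ p ∈ Q ∧ (p : ℝ) < t ∧ Inert d p}

/-- the number of the primes `p < t` in the set `Q` -/
noncomputable def total (Q : Set ℕ) (t : ℝ) : ℕ := Set.ncard {p : ℕ | p.Prime ∧ p ∈ Q ∧ (p : ℝ) < t}

/-- the threshold `(log |d|) ^ 2 (log log |d|) ^ 2` of the question -/
noncomputable def threshold (d : ℤ) : ℝ := Real.log |(d : ℝ)| ^ 2 * Real.log (Real.log |(d : ℝ)|) ^ 2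

/-- the number of the primes in `Q` below the threshold which split: `N(d)` of the question if `Q` contains all primes -/
noncomputable def N (Q : Set ℕ) (d : ℤ) : ℕ := split Q d (threshold d)

/-- the number of the primes in `Q` below the threshold -/
noncomputable def Y (Q : Set ℕ) (d : ℤ) : ℕ := total Q (threshold d)

/-- the relative deviation `(2 N_Q(e) - Y_Q(e)) / Y_Q(e)`, a number between `-1` and `1` which is `0` if half of the primes split -/
noncomputable def deviation (Q : Set ℕ) (e : ℤ) : ℝ := (2 * (N Q e : ℝ) - Y Q e) / Y Q e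

theorem result :
    -- (1) all discriminants near a given one
    (∀ (A : ℕ) (ε : ℝ), 0 < ε → ∃ D : ℝ, ∀ d : ℤ, Fund d → D ≤ |(d : ℝ)| →
      ∀ Q : Set ℕ, Real.log |(d : ℝ)| ^ (-(1 / 4) : ℝ) * Y Set.univ d ≤ Y Q d →
      ∀ B : Finset ℤ, (∀ e ∈ B, Fund e ∧ Near (Real.log (Real.log |(d : ℝ)|) ^ A) d e) →
      ∑ e ∈ B, deviation Q e ^ 2 ≤ (1 + ε) * (Y Set.univ d / Y Q d)) ∧
    -- (2) repulsion
    (∀ (A : ℕ) (ε : ℝ), 0 < ε → ∃ D : ℝ, ∀ d : ℤ, NegFund d → D ≤ |(d : ℝ)| →
      (N Set.univ d : ℝ) ≤ ε * Y Set.univ d →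
      ∀ e : ℤ, NegFund e → e ≠ d → Near (Real.log (Real.log |(d : ℝ)|) ^ A) d e →
      (2 * (N Set.univ e : ℝ) - Y Set.univ e) ^ 2 ≤ 5 * ε * (Y Set.univ e : ℝ) ^ 2) ∧
    -- (3) all `t`
    (∀ (A : ℕ) (ε : ℝ), 0 < ε → ∃ t₀ : ℝ, ∀ t : ℝ, t₀ ≤ t → ∀ (Q : Set ℕ) (B : Finset ℤ), (∀ d ∈ B, Fund d) →
      (∀ d ∈ B, ∀ e ∈ B, d ≠ e → Near (Real.log t ^ A) d e) →
      ∑ d ∈ B, ((split Q d t : ℝ) - inert Q d t) ^ 2 ≤ (1 + ε) * total Set.univ t * total Q t) := by
  refine ⟨?_, ?_, ?_⟩
  · intro A ε hε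
    exact Pool.Agent.D0H64.BT.ball5 A ε hε
  · intro A ε hε
    exact Pool.Agent.D0H64.BT.repulsion A ε hε
  · intro A ε hε
    exact Pool.Agent.D0H64.BT.part5 A ε hε

end Pool.Agent.Results.MP_aaa0df_nt.RepulsionOfCounterexamples
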