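import Pool.Agent.D0H92.QC.Thr
import Pool.Agent.D0H92.QC.Inj

set_option autoImplicit false

/-!
# Small split primes in the quadratic fields `ℚ(√n)` for the members `n` of a sparse digit set: power saving

Let `F` be the set of the integers `c + g v`, where `v` runs over the integers with `k` digits in base `B` whose digit number `j`
lies in an arbitrary set `A j` with at least two digits, for every `j`; the integers `c` and `g ≠ 0` are at most `exp (C k)`.
So `F` can have as few as `X ^ c` members up to `X`, for every `c > 0`. For all `n` in `F` with at most `|F| ^ (1 - κ)` exceptions the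
discriminant `d` of `ℚ(√n)` satisfies:

* `|d| ≥ |F| ^ κ`;
* half of the primes below the threshold `(log |d|) ^ 2 (log log |d|) ^ 2` of the question split, with the error `Y(d) ^ (1 - κ)`,
  and `N(d) ≥ (log |d|) ^ 2`;
* in each of `|F| ^ κ` arbitrary sets of primes `T i` half of the primes below `t` split, with an error of a power less than their
  number, for all `t ≤ |d| ^ κ` for which their number is at least `(log |d|) ^ (1 + δ)` and at least `t ^ ρ`.

Method: the quadratic characters modulo the primes in `T` are expanded in additive characters (Gauss sums); moments of the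
order `k / log t` of the sum over the primes; the exponential sums over `F` at the frequencies with denominator a product of
primes are bounded on average by a product over the digits.
-/

namespace Pool.Agent.Results.MP_aaa0df_nt.SparseDigitSets

open Finset

/-- `d` is the discriminant of a quadratic field (if `d < 0`: of an imaginary quadratic field, as in the frozen statement). -/
def Disc (d : ℤ) : Prop :=
  d ≠ 1 ∧ ((d % 4 = 1 ∧ Squarefree d) ∨ ∃ m : ℤ, d = 4 * m ∧ (m % 4 = 2 ∨ m % 4 = 3) ∧ Squarefree m)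

/-- The prime `p` splits in `ℚ(√d)` (as in the frozen statement). -/
def Splits (d : ℤ) (p : ℕ) : Prop := ¬ (p : ℤ) ∣ d ∧ ∃ x : ℤ, 4 * (p : ℤ) ∣ x ^ 2 - d

/-- `d` is the discriminant of the quadratic field `ℚ(√n)`: the product `n d` is a nonzero square. -/
def IsDiscOf (d n : ℤ) : Prop := Disc d ∧ n ≠ 0 ∧ IsSquare (n * d)

/-- The number of the primes `p < t` in `T`. -/
noncomputable def total (T : Set ℕ) (t : ℝ) : ℕ := Set.ncard {p : ℕ | p.Prime ∧ p ∈ T ∧ (p : ℝ) < t}

/-- The number of the primes `p < t` in `T` which split in `ℚ(√d)`. -/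
noncomputable def split (T : Set ℕ) (d : ℤ) (t : ℝ) : ℕ := Set.ncard {p : ℕ | p.Prime ∧ p ∈ T ∧ (p : ℝ) < t ∧ Splits d p}

/-- Half of the primes `p < t` in `T` split in `ℚ(√d)`, up to the power `1 - κ` of their number, for all `t ≤ |d| ^ κ` such that
the number of these primes is at least `(log |d|) ^ (1 + δ)` and at least `t ^ ρ`. -/
def Half (κ δ ρ : ℝ) (T : Set ℕ) (d : ℤ) : Prop :=
  ∀ t : ℝ, t ≤ |(d : ℝ)| ^ κ → Real.log |(d : ℝ)| ^ (1 + δ) ≤ total T t → t ^ ρ ≤ total T t →
    |2 * (split T d t : ℝ) - total T t| ≤ (total T t : ℝ) ^ (1 - κ)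

/-- The threshold `(log |d|) ^ 2 (log log |d|) ^ 2` of the question. -/
noncomputable def threshold (d : ℤ) : ℝ := Real.log |(d : ℝ)| ^ 2 * Real.log (Real.log |(d : ℝ)|) ^ 2

/-- The number `N(d)` of the question. -/
noncomputable def N (d : ℤ) : ℕ := Set.ncard {p : ℕ | p.Prime ∧ (p : ℝ) < threshold d ∧ Splits d p}

/-- The number of all primes below the threshold. -/
noncomputable def Y (d : ℤ) : ℕ := Set.ncard {p : ℕ | p.Prime ∧ (p : ℝ) < threshold d}

/-- The integers `c + g v`, where `v` has `k` digits in base `B` and the digit number `j` of `v` (counted from the right) is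
in `A j`. -/
def family (c g : ℤ) (B : ℕ) {k : ℕ} (A : Fin k → Finset ℕ) : Finset ℤ :=
  (Fintype.piFinset A).image fun a => c + g * ∑ j : Fin k, (B : ℤ) ^ (j : ℕ) * a j

/-- `ℚ(√n)` is a quadratic field with the following properties of its discriminant `d`: `|d| ≥ M ^ κ`; at least `(log |d|) ^ 2`
of the `Y(d)` primes below the threshold split, and half of them up to `Y(d) ^ (1 - κ)`; and `Half` holds for the sets of primes
`T i` with `i ≤ M ^ κ`. -/
def Good (κ δ ρ M : ℝ) (T : ℕ → Set ℕ) (n : ℤ) : Prop :=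
  (∃ d, IsDiscOf d n) ∧ ∀ d, IsDiscOf d n →
    M ^ κ ≤ |(d : ℝ)| ∧
    (Real.log |(d : ℝ)| ^ 2 ≤ N d ∧ |2 * (N d : ℝ) - Y d| ≤ (Y d : ℝ) ^ (1 - κ)) ∧
    ∀ i : ℕ, (i : ℝ) ≤ M ^ κ → Half κ δ ρ (T i) d

open Classical in
/-- **Main theorem.** -/
theorem result (B : ℕ) (hB : 2 ≤ B) (C δ ρ : ℝ) (hC : 0 ≤ C) (hδ : 0 < δ) (hρ : 0 < ρ) (hρ1 : ρ ≤ 1) :
    ∃ κ : ℝ, 0 < κ ∧ κ < 1 ∧ ∃ k₀ : ℕ, ∀ k : ℕ, k₀ ≤ k → ∀ A : Fin k → Finset ℕ,
      (∀ j, ∀ a ∈ A j, a < B) → (∀ j, 2 ≤ (A j).card) →
      ∀ c g : ℤ, g ≠ 0 → |(c : ℝ)| ≤ Real.exp (C * k) → |(g : ℝ)| ≤ Real.exp (C * k) → ∀ T : ℕ → Set ℕ,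
      (((family c g B A).filter fun n => ¬ Good κ δ ρ (family c g B A).card T n).card : ℝ) ≤
        ((family c g B A).card : ℝ) ^ (1 - κ) := by
  obtain ⟨κ, hκ, hκ1, k₀, hk₀⟩ := Pool.Agent.D0H92.QC.main B hB C δ ρ hC hδ hρ hρ1
  refine ⟨κ, hκ, hκ1, k₀, ?_⟩
  intro k hk A hA h2 c g hg hc hg2 T
  have h3 := hk₀ k hk A hA h2 c g hg hc hg2 T
  have hinj : Set.InjOn (fun a : Fin k → ℕ => c + g * ∑ j : Fin k, (B : ℤ) ^ (j : ℕ) * a j) (Fintype.piFinset A : Set (Fin k → ℕ)) := by
    intro a ha b hb hab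
    have h4 : (g : ℤ) * ∑ j : Fin k, (B : ℤ) ^ (j : ℕ) * a j = g * ∑ j : Fin k, (B : ℤ) ^ (j : ℕ) * b j := by
      simpa using hab
    have h5 := mul_left_cancel₀ hg h4
    have h6 : ∑ j : Fin k, B ^ (j : ℕ) * a j = ∑ j : Fin k, B ^ (j : ℕ) * b j := by exact_mod_cast h5
    rw [mem_coe, Fintype.mem_piFinset] at ha hb
    exact Pool.Agent.D0H92.QC.digits_inj B (by omega) a b (fun j => hA j _ (ha j)) (fun j => hA j _ (hb j)) h6
  have hcard : (family c g B A).card = (Fintype.piFinset A).card := card_image_of_injOn hinj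
  have hN : ∀ d : ℤ, N d = Pool.Agent.D0H92.QC.split Set.univ d (Real.log |(d : ℝ)| ^ 2 * Real.log (Real.log |(d : ℝ)|) ^ 2) := by
    intro d
    unfold N Pool.Agent.D0H92.QC.split threshold
    congr 1
    ext p
    simp only [Set.mem_ofPred_eq, Set.mem_univ, true_and]
    rfl
  have hY : ∀ d : ℤ, Y d = Pool.Agent.D0H92.QC.total Set.univ (Real.log |(d : ℝ)| ^ 2 * Real.log (Real.log |(d : ℝ)|) ^ 2) := by
    intro d
    unfold Y Pool.Agent.D0H92.QC.total threshold
    congr 1
    ext p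
    simp only [Set.mem_ofPred_eq, Set.mem_univ, true_and]
  rw [hcard]
  refine le_trans ?_ h3
  unfold family
  rw [filter_image]
  refine Nat.cast_le.2 (card_image_le.trans (card_le_card ?_))
  intro t ht
  rw [mem_filter] at ht ⊢
  refine ⟨ht.1, fun hcon => ht.2 ?_⟩
  refine ⟨hcon.1, fun d hd => ?_⟩
  obtain ⟨g1, g2, g3⟩ := hcon.2 d hd
  rw [hN, hY]
  exact ⟨g1, g2, g3⟩

end Pool.Agent.Results.MP_aaa0df_nt.SparseDigitSets
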